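import Pool.Agent.R804.TypeA.Main

/-! Type B difference sequences: the smallest relative term. -/

namespace Pool.Agent.R804.TypeB

open Matrix Pool.Agent.R804.TypeA

/-- coefficient vector of the admissible (type B) equation
`∑_{i ≤ t < j} d_t = ∑_{k ≤ t < l} d_t` (indices from `0`) -/
def eqnB {n : ℕ} (i j k l : ℕ) : Fin n → ℤ := blk i j - blk k l

/-- `v` is the coefficient vector of an admissible equation in `n` unknowns: the two blocks are
nonempty and disjoint -/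
def IsEqnB {n : ℕ} (v : Fin n → ℤ) : Prop :=
  ∃ i j k l : ℕ, i < j ∧ j ≤ k ∧ k < l ∧ l ≤ n ∧ v = eqnB i j k l

/-- type B sequences: positive vectors satisfying `n - 1` linearly independent admissible
equations -/
def IsTypeB {n : ℕ} (d : Fin n → ℝ) : Prop :=
  (∀ t, 0 < d t) ∧ ∃ E : Fin (n - 1) → Fin n → ℤ, (∀ r, IsEqnB (E r)) ∧
    LinearIndependent ℝ (fun r t => (E r t : ℝ)) ∧ ∀ r, ∑ t, (E r t : ℝ) * d t = 0

/-- type B sequences in smallest-integer format -/
def BB (n : ℕ) : Set (Fin n → ℤ) :=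
  {d | IsTypeB (fun t => (d t : ℝ)) ∧ Finset.univ.gcd d = 1}

/-- the main inequality -/
theorem main_aux {m : ℕ} {d : Fin (m + 1) → ℝ} (hpos : ∀ t, 0 < d t)
    (E : Fin m → Fin (m + 1) → ℤ) (hE : ∀ r, IsEqnB (E r))
    (hli : LinearIndependent ℝ (fun r t => (E r t : ℝ))) (hs : ∀ r, ∑ t, (E r t : ℝ) * d t = 0)
    (i : Fin (m + 1)) : ∑ j, d j ≤ 2 ^ m * d i := by
  set S := ∑ j, d j with hS
  have hSpos : 0 < S := Finset.sum_pos (fun j _ => hpos j) ⟨i, Finset.mem_univ _⟩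
  let N : Matrix (Fin (m + 1)) (Fin (m + 1)) ℤ := Fin.cons (blk 0 (m + 1)) E
  have hN0 : N 0 = blk 0 (m + 1) := rfl
  have hNs : ∀ r : Fin m, N r.succ = E r := fun r => rfl
  have hdet : |N.det| ≤ 2 ^ m := by
    have := det_diff (Finset.univ.erase (0 : Fin (m + 1))) N ?_ ?_
    · rwa [Finset.card_erase_of_mem (Finset.mem_univ _), Finset.card_univ, Fintype.card_fin,
        Nat.add_sub_cancel] at this
    · intro r hr
      have hr0 : r ≠ 0 := (Finset.mem_erase.1 hr).1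
      obtain ⟨r', rfl⟩ := Fin.exists_succ_eq.2 hr0
      obtain ⟨a, b, c, e, _, _, _, _, h⟩ := hE r'
      exact ⟨blk a b, blk c e, ⟨a, b, rfl⟩, ⟨c, e, rfl⟩, by rw [hNs, h]; rfl⟩
    · intro r hr
      have hr0 : r = 0 := by
        by_contra h
        exact hr (Finset.mem_erase.2 ⟨h, Finset.mem_univ _⟩)
      subst hr0
      exact ⟨0, m + 1, hN0⟩
  let R : Matrix (Fin (m + 1)) (Fin (m + 1)) ℝ := N.map (Int.castRingHom ℝ)
  have hR : R = (Int.castRingHom ℝ).mapMatrix N := rfl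
  have hR0 : ∀ t, R 0 t = 1 := by
    intro t
    have ht : (t : ℕ) < m + 1 := t.isLt
    simp [R, Matrix.map_apply, hN0, blk, ht]
  have hRs : ∀ (r : Fin m) t, R r.succ t = (E r t : ℝ) := fun r t => rfl
  have hmul : R *ᵥ d = Pi.single 0 S := by
    funext r
    rcases Fin.eq_zero_or_eq_succ r with rfl | ⟨r', rfl⟩
    · simp [Matrix.mulVec, dotProduct, hR0, hS]
    · simp only [Matrix.mulVec, dotProduct, hRs, hs r']
      rw [Pi.single_eq_of_ne (Fin.succ_ne_zero _)]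
  have hrows : LinearIndependent ℝ R.row := by
    have h1 : R.row = Fin.cons (fun _ => (1 : ℝ)) (fun r t => (E r t : ℝ)) := by
      funext r
      rcases Fin.eq_zero_or_eq_succ r with rfl | ⟨r', rfl⟩
      · funext t; exact hR0 t
      · funext t; exact hRs r' t
    rw [h1, linearIndependent_finCons]
    refine ⟨hli, fun hmem => ?_⟩
    let φ : (Fin (m + 1) → ℝ) →ₗ[ℝ] ℝ :=
      { toFun := fun v => ∑ t, v t * d t
        map_add' := fun x y => by simp [add_mul, Finset.sum_add_distrib]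
        map_smul' := fun c x => by simp [mul_assoc, Finset.mul_sum] }
    have hle : Submodule.span ℝ (Set.range (fun (r : Fin m) t => (E r t : ℝ))) ≤ LinearMap.ker φ := by
      rw [Submodule.span_le]
      rintro _ ⟨r, rfl⟩
      exact hs r
    have h2 : φ (fun _ => 1) = 0 := hle hmem
    have h3 : φ (fun _ => 1) = S := by simp [φ, hS]
    rw [h3] at h2
    exact hSpos.ne' h2
  have hRdet : R.det ≠ 0 := by
    have := Matrix.linearIndependent_rows_iff_isUnit.1 hrows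
    exact ((Matrix.isUnit_iff_isUnit_det R).1 this).ne_zero
  have hadj : R.det * d i = S * ((N.adjugate i 0 : ℤ) : ℝ) := by
    have h1 : R.adjugate *ᵥ (R *ᵥ d) = R.det • d := by
      rw [Matrix.mulVec_mulVec, Matrix.adjugate_mul, Matrix.smul_mulVec, Matrix.one_mulVec]
    have h2 := congrFun h1 i
    rw [hmul] at h2
    have h3 : R.adjugate i 0 = ((N.adjugate i 0 : ℤ) : ℝ) := by
      rw [hR, ← RingHom.map_adjugate]
      rfl
    simp only [Matrix.mulVec, Pi.smul_apply, smul_eq_mul, dotProduct_single] at h2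
    rw [← h2, h3]
    ring
  have hRN : R.det = ((N.det : ℤ) : ℝ) := by
    rw [hR, ← RingHom.map_det]
    rfl
  have hz : N.adjugate i 0 ≠ 0 := by
    intro h
    rw [h] at hadj
    simp only [Int.cast_zero, mul_zero] at hadj
    exact (mul_ne_zero hRdet (hpos i).ne') hadj
  have hz1 : (1 : ℝ) ≤ |((N.adjugate i 0 : ℤ) : ℝ)| := by
    exact_mod_cast Int.one_le_abs hz
  have hdet' : |R.det| ≤ 2 ^ m := by
    rw [hRN]
    exact_mod_cast hdet
  have h5 : |R.det| * d i = S * |((N.adjugate i 0 : ℤ) : ℝ)| := by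
    have := congrArg abs hadj
    rwa [abs_mul, abs_mul, abs_of_pos (hpos i), abs_of_pos hSpos] at this
  have h6 : |R.det| * d i ≤ 2 ^ m * d i := mul_le_mul_of_nonneg_right hdet' (hpos i).le
  nlinarith

theorem main_ineq {n : ℕ} {d : Fin n → ℝ} (hd : IsTypeB d) (i : Fin n) :
    ∑ j, d j ≤ 2 ^ (n - 1) * d i := by
  rcases n with _ | m
  · exact i.elim0
  obtain ⟨hpos, E, hE, hli, hs⟩ := hd
  exact main_aux (m := m) hpos E hE hli hs i

theorem ext_memB (m : ℕ) : TypeA.ext (m + 1) ∈ BB (m + 1) := by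
  obtain ⟨⟨h1, E, h2, h3, h4⟩, h5⟩ := ext_mem m
  refine ⟨⟨h1, E, fun r => ?_, h3, h4⟩, h5⟩
  obtain ⟨i, j, k, a, b, c, h⟩ := h2 r
  exact ⟨i, j, j, k, a, le_rfl, b, c, h⟩

/-- Q1 -/
theorem isLeast_main (n : ℕ) (hn : 1 ≤ n) :
    IsLeast {x : ℝ | ∃ d ∈ BB n, ∃ i, (∀ j, d i ≤ d j) ∧ x = (d i : ℝ) / ∑ j, (d j : ℝ)}
      (1 / 2 ^ (n - 1)) := by
  obtain ⟨m, rfl⟩ : ∃ m, n = m + 1 := ⟨n - 1, by omega⟩
  constructor
  · obtain ⟨⟨d, _, i, h1, h2⟩, _⟩ := TypeA.isLeast_main (m + 1) (by omega)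
    refine ⟨TypeA.ext (m + 1), ext_memB m, 0, ?_, ?_⟩
    · intro j
      have h2 : TypeA.ext (m + 1) 0 = 1 := by simp [TypeA.ext]
      rw [h2]
      simp only [TypeA.ext]
      split_ifs
      · exact le_rfl
      · exact one_le_pow₀ (by norm_num)
    · have h2 : TypeA.ext (m + 1) 0 = 1 := by simp [TypeA.ext]
      have h3 : ∑ t, ((TypeA.ext (m + 1) t : ℤ) : ℝ) = 2 ^ m := by
        have := congrArg (fun z : ℤ => (z : ℝ)) (sum_ext_fin m)
        push_cast at this
        exact this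
      rw [h2, h3]
      norm_num
  · rintro x ⟨d, ⟨hd, _⟩, i, _, rfl⟩
    have h1 := main_ineq hd i
    have hpos : 0 < ∑ j, (d j : ℝ) := Finset.sum_pos (fun j _ => hd.1 j) ⟨i, Finset.mem_univ _⟩
    rw [div_le_div_iff₀ (by positivity) hpos]
    linarith

end Pool.Agent.R804.TypeB
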